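import Pool.Agent.N288.MM.Final

/-!
# Uniform PI and QL bounds do not imply Mosco convergence of the Cheeger energies

The spaces are `X_N = (ℝ, |·|, (3/2 + cos(2π(N+1)x)/2) dx)` and the limit is
`X = (ℝ, |·|, (3/2) dx)`; the embeddings into `Z = ℝ` are the identity.
-/

set_option autoImplicit false

open MeasureTheory Filter Topology Set Metric
open scoped ENNReal NNReal Real
open Pool.Agent.N288.MM

namespace Pool.Agent.Results.MP_a99579_gt.NotMosco

/-- the pmGH convergence `(ℝ, w_N dx) → (ℝ, (3/2) dx)` -/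
noncomputable def conv : PMGH (fun N => line (wN N) (wN_weight N)) (line wI wI_weight)
    (fun _ => (0 : ℝ)) (0 : ℝ) where
  Z := ℝ
  ι := fun _ x => x
  κ := fun x => x
  iso_ι := fun _ => isometry_id
  iso_κ := isometry_id
  base := tendsto_const_nhds
  haus₁ := fun R ε _ hε => Eventually.of_forall fun i y _ => ⟨y, by
    show dist (y : ℝ) y < ε
    rw [dist_self]; exact hε⟩
  haus₂ := fun R ε _ hε => Eventually.of_forall fun i y _ => ⟨y, by
    show dist (y : ℝ) y < ε
    rw [dist_self]; exact hε⟩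
  weak := fun _ hψ => weak_int (cbs_integrable hψ)

/-- Q1: there is a pmGH convergent sequence of infinitesimally Hilbertian spaces, with a uniform
local doubling and Poincaré inequality and with a uniform quantitative Lipschitz (QL) bound for
harmonic functions, all satisfied by the limit space too, whose Cheeger energies do not Mosco
converge to the Cheeger energy of the limit. -/
theorem result : ∃ (S : ℕ → Space) (T : Space) (s : ∀ i, (S i).X) (t : T.X) (P : PMGH S T s t)
    (cv cp ch : ℝ → ℝ) (Λ : ℝ),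
    1 ≤ Λ ∧ (∀ R, 0 < R → 1 ≤ cv R ∧ 1 ≤ cp R ∧ 1 ≤ ch R) ∧
    (∀ i, IH (S i) ∧ PI (S i) cv cp Λ ∧ QL (S i) ch) ∧
    (IH T ∧ PI T cv cp Λ ∧ QL T ch) ∧
    ¬ P.Mosco := by
  refine ⟨_, _, _, _, conv, fun _ => 4, fun _ => 3, fun _ => 128, 1, le_rfl,
    fun R _ => ⟨by norm_num, by norm_num, by norm_num⟩,
    fun i => ⟨line_IH _, line_PI _, QL_line _⟩, ⟨line_IH _, line_PI _, QL_line _⟩, fun hM => ?_⟩
  have hW : conv.Weak (fun N => fN N) tent := by
    refine ⟨fun N => fN_memLp (wN_weight N) N, tent_memLp wI_weight,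
      ⟨64, fun N => fN_norm (wN_weight N) N⟩, fun ψ hψ => weak_fN hψ⟩
  have h1 := hM.1 _ _ hW
  have h2 : Cw wI tent ≤ liminf (fun N => Cw (wN N) (fN N)) atTop := h1
  simp only [Cw_tent, Cw_fN, liminf_const] at h2
  rw [ENNReal.ofReal_le_ofReal_iff (by norm_num)] at h2
  norm_num at h2

end Pool.Agent.Results.MP_a99579_gt.NotMosco
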